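import Mathlib
import Pool.Agent.R442.MS.A

/-!
# The fraction of positive magic squares is increasing

Full (positive) answer to Q1 of MP_b601b9_co.
-/

set_option autoImplicit false

namespace Pool.Agent.Results.MP_b601b9_co.PositiveFractionIncreasing

open Finset

/-- `M(n,k)`: the `n × n` matrices of nonnegative integers with all row and column sums `k`. -/
def M (n k : ℕ) : Set (Fin n → Fin n → ℕ) :=
  {A | (∀ i, ∑ j, A i j = k) ∧ (∀ j, ∑ i, A i j = k)}

/-- The proportion of the elements of `M(n,k)` all of whose entries are at least `1`. -/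
noncomputable def P (n k : ℕ) : ℚ :=
  ((M n k ∩ {A | ∀ i j, 1 ≤ A i j}).ncard : ℚ) / ((M n k).ncard : ℚ)

theorem ncard_M (n k : ℕ) : (M n k).ncard = R442.MS.HH n k := by
  have h : M n k = ↑(R442.MS.SS (0 : Fin n → Fin n → ℕ) (fun _ _ => k) (R442.MS.kk _ k) (R442.MS.kk _ k)) := by
    ext A
    rw [mem_coe, R442.MS.mem_HH]
    rfl
  rw [h, Set.ncard_coe_finset]
  rfl

theorem ncard_pos (n k : ℕ) : (M n (k + n) ∩ {A | ∀ i j, 1 ≤ A i j}).ncard = (M n k).ncard := by
  have h : M n (k + n) ∩ {A | ∀ i j, 1 ≤ A i j} = (fun A : Fin n → Fin n → ℕ => fun i j => A i j + 1) '' (M n k) := by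
    ext A
    constructor
    · rintro ⟨⟨h1, h2⟩, h3⟩
      refine ⟨fun i j => A i j - 1, ⟨fun i => ?_, fun j => ?_⟩, ?_⟩
      · have e : ∑ j, A i j = ∑ j, ((A i j - 1) + 1) := sum_congr rfl (fun j _ => by have := h3 i j; omega)
        rw [sum_add_distrib, h1 i] at e
        simp at e
        exact e.symm
      · have e : ∑ i, A i j = ∑ i, ((A i j - 1) + 1) := sum_congr rfl (fun i _ => by have := h3 i j; omega)
        rw [sum_add_distrib, h2 j] at e
        simp at e
        exact e.symm
      · funext i j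
        have := h3 i j
        simp only
        omega
    · rintro ⟨B, ⟨h1, h2⟩, rfl⟩
      refine ⟨⟨fun i => ?_, fun j => ?_⟩, fun i j => Nat.le_add_left _ _⟩
      · simp only [sum_add_distrib, h1 i]; simp
      · simp only [sum_add_distrib, h2 j]; simp
  rw [h, Set.ncard_image_of_injective]
  intro A B hAB
  funext i j
  have := congrFun (congrFun hAB i) j
  simpa using this

/-- For every `n ≥ 2` the sequence `k ↦ P(n,k)` is strictly increasing on `k ≥ n`. -/
theorem result : ∀ n : ℕ, 2 ≤ n → ∀ k : ℕ, n ≤ k → P n k < P n (k + 1) := by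
  intro n hn k hk
  obtain ⟨m, rfl⟩ := Nat.exists_eq_add_of_le' hn
  obtain ⟨a, rfl⟩ := Nat.exists_eq_add_of_le' hk
  rw [P, P, show a + (m + 2) + 1 = (a + 1) + (m + 2) by ring, ncard_pos, ncard_pos, ncard_M, ncard_M, ncard_M, ncard_M]
  have p1 := R442.MS.HH_pos (m + 2) (a + (m + 2))
  have p2 := R442.MS.HH_pos (m + 2) (a + 1 + (m + 2))
  rw [div_lt_div_iff₀ (by exact_mod_cast p1) (by exact_mod_cast p2)]
  have := R442.MS.HH_shift m a (m + 1)
  rw [show a + (m + 1) + 2 = a + 1 + (m + 2) by ring, show a + (m + 1) + 1 = a + (m + 2) by ring] at this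
  exact_mod_cast this

end Pool.Agent.Results.MP_b601b9_co.PositiveFractionIncreasing
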